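import Mathlib
import Pool.Prelude.Def_F_c31e40fa
import Pool.Agent.H712R2.MultiCoarse2

/-!
# Centres of period `k + 2` close to the positive real axis (helper272)

Backward iteration of the rescaled critical orbit of `z ^ n + c`.
-/

set_option autoImplicit false

open Complex Set Topology Filter Bornology N62a1eb23

namespace Pool.Agent.Y272

open Pool.Agent.H712R2

/-- one backward step -/
noncomputable def G (n : ℕ) (l u : ℂ) : ℂ := n * (Complex.exp ((u - Complex.log l) / n) - 1)

/-- the logarithms of the backward orbit of `-n` -/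
noncomputable def U (n : ℕ) (l : ℂ) : ℕ → ℂ
  | 0 => (Real.log n : ℝ) + Real.pi * I
  | (i + 1) => Complex.log (G n l (U n l i))

theorem G_pow {n : ℕ} (hn : n ≠ 0) {l : ℂ} (hl : l ≠ 0) (u : ℂ) :
    l * (1 + G n l u / n) ^ n = Complex.exp u := by
  have hnC : (n : ℂ) ≠ 0 := by exact_mod_cast hn
  have h1 : 1 + G n l u / n = Complex.exp ((u - Complex.log l) / n) := by
    unfold G; field_simp; ring
  rw [h1, ← Complex.exp_nat_mul, mul_div_cancel₀ _ hnC, Complex.exp_sub, Complex.exp_log hl]
  field_simp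

/-- the rescaled critical orbit -/
noncomputable def X (n : ℕ) (l : ℂ) : ℕ → ℂ
  | 0 => 0
  | (j + 1) => l * (1 + X n l j / n) ^ n

theorem P_eq {n : ℕ} (hn : 2 ≤ n) {l c : ℂ} (h : (n : ℂ) * c ^ (n - 1) = l) (j : ℕ) :
    P n (j + 1) c = c * (1 + X n l j / n) := by
  have hnC : (n : ℂ) ≠ 0 := by
    have : n ≠ 0 := by omega
    exact_mod_cast this
  have hcn : c ^ n = c ^ (n - 1) * c := by
    rw [← pow_succ]; congr 1; omega
  induction j with
  | zero => rw [P_one hn]; simp [X]
  | succ j ih =>
    rw [P_succ, ih, mul_pow, hcn]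
    simp only [X]
    rw [← h]
    field_simp
    ring

theorem orbit {n k : ℕ} (hn : 2 ≤ n) {l : ℂ} (hl : l ≠ 0)
    (hne : ∀ i ≤ k, G n l (U n l i) ≠ 0) (hfix : G n l (U n l k) = l) :
    X n l (k + 2) = -n := by
  have hn0 : n ≠ 0 := by omega
  have h1 : ∀ i, i ≤ k → X n l (i + 1) = G n l (U n l (k - i)) := by
    intro i
    induction i with
    | zero => intro _; simp [X, hfix]
    | succ i ih =>
      intro hi
      have h2 := ih (by omega)
      have h3 : X n l (i + 1 + 1) = l * (1 + X n l (i + 1) / n) ^ n := rfl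
      rw [h3, h2, G_pow hn0 hl]
      have h4 : k - i = (k - (i + 1)) + 1 := by omega
      rw [h4]
      simp only [U]
      rw [Complex.exp_log (hne _ (by omega))]
  have h2 := h1 k le_rfl
  have h3 : X n l (k + 2) = l * (1 + X n l (k + 1) / n) ^ n := rfl
  rw [h3, h2, Nat.sub_self, G_pow hn0 hl]
  simp only [U]
  rw [Complex.exp_add, Complex.exp_pi_mul_I, ← Complex.ofReal_exp, Real.exp_log (by positivity)]
  simp

theorem mem_of_periodic {n : ℕ} {c : ℂ} {m : ℕ} (hm : 1 ≤ m) (h : P n m c = 0) :
    c ∈ multibrotSet n := by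
  have hdef : c ∈ multibrotSet n ↔ ¬ Tendsto (fun k => P n k c) atTop (cobounded ℂ) := Iff.rfl
  rw [hdef]
  intro ht
  have hper : ∀ j, P n (m * j) c = 0 := by
    intro j
    unfold P at h ⊢
    rw [Function.iterate_mul]
    induction j with
    | zero => rfl
    | succ j ih => rw [Function.iterate_succ_apply', ih, h]
  rw [← tendsto_norm_atTop_iff_cobounded] at ht
  obtain ⟨N, hN⟩ := (ht.eventually (eventually_gt_atTop 0)).exists_forall_of_atTop
  have h1 := hN (m * N) (by nlinarith)
  rw [hper] at h1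
  simp at h1

end Pool.Agent.Y272
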