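import Mathlib
import Pool.Agent.Y272.Back

/-!
# The fixed point of the backward iteration (helper272)
-/

set_option autoImplicit false

open Complex Set Topology Filter Bornology N62a1eb23 Metric

namespace Pool.Agent.Y272

open Pool.Agent.H712R2

/-- iterated logarithms of `n` -/
noncomputable def Lg (n i : ℕ) : ℝ := Real.log^[i] n

theorem Lg_succ (n i : ℕ) : Lg n (i + 1) = Real.log (Lg n i) := by
  unfold Lg; rw [Function.iterate_succ_apply']

theorem Lg_zero (n : ℕ) : Lg n 0 = n := rfl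

theorem Lg_one (n : ℕ) : Lg n 1 = Real.log n := by rw [Lg_succ, Lg_zero]

/-- the size conditions on `n` -/
structure Big (n m : ℕ) : Prop where
  m1 : 1 ≤ m
  l16 : ∀ i ≤ m, 16 ≤ Lg n i
  gap : Lg n (m + 1) + 8 ≤ Lg n m / 2
  sq : (2 * Real.log n + 8) ^ 2 ≤ n

theorem Big.anti {n m : ℕ} (h : Big n m) {i j : ℕ} (hij : i ≤ j) (hj : j ≤ m + 1) :
    Lg n j ≤ Lg n i := by
  induction j, hij using Nat.le_induction with
  | base => exact le_rfl
  | succ j hij ih =>
    have h1 := ih (by omega)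
    have h2 := h.l16 j (by omega)
    rw [Lg_succ]
    exact (Real.log_le_self (by linarith)).trans h1

theorem near_log {R : ℝ} (hR : 0 < R) {z : ℂ} (hz : z ∈ closedBall (R : ℂ) (R / 2)) :
    ‖Complex.log z - (Real.log R : ℝ)‖ ≤ 3 / 4 := by
  have hRC : (R : ℂ) ≠ 0 := by exact_mod_cast hR.ne'
  set w : ℂ := (z - R) / R with hw
  have hzw : z = R * (1 + w) := by rw [hw]; field_simp; ring
  have hw1 : ‖w‖ ≤ 1 / 2 := by
    rw [hw, norm_div, Complex.norm_real, Real.norm_eq_abs, abs_of_pos hR, div_le_iff₀ hR]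
    rw [mem_closedBall, dist_eq_norm] at hz
    linarith
  have h1 : (1 + w) ≠ 0 := by
    intro h
    have : w = -1 := by linear_combination h
    rw [this] at hw1
    norm_num at hw1
  rw [hzw, Complex.log_ofReal_mul hR h1, Complex.ofReal_log hR.le]
  have h2 := Complex.norm_log_one_add_half_le_self hw1
  rw [add_sub_cancel_left]
  linarith

theorem ball_re {R : ℝ} {z : ℂ} (hz : z ∈ closedBall (R : ℂ) (R / 2)) : R / 2 ≤ z.re := by
  rw [mem_closedBall, dist_eq_norm] at hz
  have h1 := Complex.abs_re_le_norm (z - R)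
  have h2 : (z - R).re = z.re - R := by simp
  rw [h2] at h1
  have h3 := abs_le.mp (h1.trans hz)
  linarith [h3.1]

theorem log_lip {R : ℝ} (hR : 0 < R) {z w : ℂ} (hz : z ∈ closedBall (R : ℂ) (R / 2))
    (hw : w ∈ closedBall (R : ℂ) (R / 2)) :
    ‖Complex.log z - Complex.log w‖ ≤ 2 / R * ‖z - w‖ := by
  have := Convex.norm_image_sub_le_of_norm_hasDerivWithin_le (f := Complex.log)
    (f' := fun z => z⁻¹) (C := 2 / R) (s := closedBall (R : ℂ) (R / 2)) (x := w) (y := z)
    (fun x hx => ?_) (fun x hx => ?_) (convex_closedBall _ _) hw hz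
  · exact this
  · have h1 := ball_re hx
    exact (Complex.hasDerivAt_log (Or.inl (by linarith))).hasDerivWithinAt
  · have h1 := ball_re hx
    have h2 := Complex.re_le_norm x
    rw [norm_inv]
    rw [inv_le_comm₀ (by linarith) (by positivity), inv_div]
    linarith

theorem exp_lip {v w : ℂ} (hv : ‖v‖ ≤ 1 / 2) (hw : ‖w‖ ≤ 1 / 2) :
    ‖Complex.exp v - Complex.exp w‖ ≤ 2 * ‖v - w‖ := by
  have := Convex.norm_image_sub_le_of_norm_hasDerivWithin_le (f := Complex.exp)
    (f' := Complex.exp) (C := 2) (s := closedBall (0 : ℂ) (1 / 2)) (x := w) (y := v)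
    (fun x hx => (Complex.hasDerivAt_exp x).hasDerivWithinAt) (fun x hx => ?_)
    (convex_closedBall _ _) (by simpa using hw) (by simpa using hv)
  · exact this
  · rw [Complex.norm_exp]
    have h1 : x.re ≤ 1 / 2 := (Complex.re_le_norm x).trans (by simpa using hx)
    calc Real.exp x.re ≤ Real.exp (1 / 2) := Real.exp_le_exp.mpr h1
      _ ≤ 2 := by
        have h2 := Real.exp_one_lt_d9
        have h3 : Real.exp (1 / 2) ^ 2 = Real.exp 1 := by
          rw [← Real.exp_nat_mul]; norm_num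
        nlinarith [Real.exp_pos (1 / 2)]

theorem G_near {n : ℕ} {l u : ℂ} (hn : 1 ≤ n) (h : ‖u - Complex.log l‖ ^ 2 ≤ n) :
    ‖G n l u - (u - Complex.log l)‖ ≤ 1 := by
  have hnr : (1 : ℝ) ≤ n := by exact_mod_cast hn
  have hnC : (n : ℂ) ≠ 0 := by
    have : n ≠ 0 := by omega
    exact_mod_cast this
  set v : ℂ := (u - Complex.log l) / n with hv
  have hnv : ‖v‖ = ‖u - Complex.log l‖ / n := by rw [hv, norm_div, Complex.norm_natCast]
  have hv1 : ‖v‖ ≤ 1 := by
    rw [hnv, div_le_one (by linarith)]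
    nlinarith [norm_nonneg (u - Complex.log l)]
  have h1 := Complex.norm_exp_sub_one_sub_id_le hv1
  have h2 : G n l u - (u - Complex.log l) = n * (Complex.exp v - 1 - v) := by
    unfold G; rw [hv]; field_simp
  rw [h2, norm_mul, Complex.norm_natCast]
  calc (n : ℝ) * ‖Complex.exp v - 1 - v‖ ≤ n * ‖v‖ ^ 2 := by gcongr
    _ = ‖u - Complex.log l‖ ^ 2 / n := by rw [hnv]; field_simp
    _ ≤ 1 := by rw [div_le_one (by linarith)]; exact h

theorem G_lip {n : ℕ} {l u l' u' : ℂ} (hn : 1 ≤ n) (h : ‖u - Complex.log l‖ ≤ n / 2)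
    (h' : ‖u' - Complex.log l'‖ ≤ n / 2) :
    ‖G n l u - G n l' u'‖ ≤ 2 * (‖u - u'‖ + ‖Complex.log l - Complex.log l'‖) := by
  have hnr : (1 : ℝ) ≤ n := by exact_mod_cast hn
  have hnC : (n : ℂ) ≠ 0 := by
    have : n ≠ 0 := by omega
    exact_mod_cast this
  have e : G n l u - G n l' u' = n * (Complex.exp ((u - Complex.log l) / n) -
      Complex.exp ((u' - Complex.log l') / n)) := by unfold G; ring
  have h1 : ‖(u - Complex.log l) / n‖ ≤ 1 / 2 := by
    rw [norm_div, Complex.norm_natCast, div_le_iff₀ (by linarith)]; linarith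
  have h2 : ‖(u' - Complex.log l') / n‖ ≤ 1 / 2 := by
    rw [norm_div, Complex.norm_natCast, div_le_iff₀ (by linarith)]; linarith
  rw [e, norm_mul, Complex.norm_natCast]
  calc (n : ℝ) * _ ≤ n * (2 * ‖(u - Complex.log l) / n - (u' - Complex.log l') / n‖) := by
        gcongr; exact exp_lip h1 h2
    _ = 2 * ‖(u - u') - (Complex.log l - Complex.log l')‖ := by
        have : (u - Complex.log l) / n - (u' - Complex.log l') / n =
          ((u - u') - (Complex.log l - Complex.log l')) / n := by ring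
        rw [this, norm_div, Complex.norm_natCast]
        field_simp
    _ ≤ _ := by gcongr; exact norm_sub_le _ _

variable {n m : ℕ}

theorem Big.logn (h : Big n m) : Real.log n = Lg n 1 := (Lg_one n).symm

theorem Big.log_l (h : Big n m) {l : ℂ} (hl : l ∈ closedBall (Lg n m : ℂ) (Lg n m / 2)) :
    ‖Complex.log l‖ ≤ Lg n (m + 1) + 1 := by
  have h1 := h.l16 m le_rfl
  have h2 := near_log (by linarith) hl
  rw [← Lg_succ] at h2
  have h3 : 0 ≤ Lg n (m + 1) := by rw [Lg_succ]; exact Real.log_nonneg (by linarith)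
  have h4 := norm_add_le (Complex.log l - (Lg n (m + 1) : ℝ)) (Lg n (m + 1) : ℝ)
  rw [sub_add_cancel, Complex.norm_real, Real.norm_eq_abs, abs_of_nonneg h3] at h4
  linarith

theorem Big.n1 (h : Big n m) : 16 ≤ n := by
  have := h.l16 0 (by omega)
  rw [Lg_zero] at this
  exact_mod_cast this

theorem Big.uln (h : Big n m) {l u : ℂ} (hl : l ∈ closedBall (Lg n m : ℂ) (Lg n m / 2))
    {i : ℕ} (hi : i < m) (hu : ‖u - (Lg n (i + 1) : ℝ)‖ ≤ 4) :
    ‖u - Complex.log l‖ ≤ 2 * Real.log n + 5 := by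
  have h1 := h.log_l hl
  have h2 : Lg n (i + 1) ≤ Lg n 1 := h.anti (by omega) (by omega)
  have h3 : Lg n (m + 1) ≤ Lg n 1 := h.anti (by omega) (by omega)
  have h5 : 0 ≤ Lg n (i + 1) := by
    rw [Lg_succ]; exact Real.log_nonneg (by linarith [h.l16 i (by omega)])
  have h4 := norm_add_le (u - (Lg n (i + 1) : ℝ)) (Lg n (i + 1) : ℝ)
  rw [sub_add_cancel, Complex.norm_real, Real.norm_eq_abs, abs_of_nonneg h5] at h4
  have h6 := norm_sub_le u (Complex.log l)
  rw [h.logn]
  linarith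

theorem Big.half (h : Big n m) {l u : ℂ} (hl : l ∈ closedBall (Lg n m : ℂ) (Lg n m / 2))
    {i : ℕ} (hi : i < m) (hu : ‖u - (Lg n (i + 1) : ℝ)‖ ≤ 4) :
    ‖u - Complex.log l‖ ≤ n / 2 ∧ ‖u - Complex.log l‖ ^ 2 ≤ n := by
  have h1 := h.uln hl hi hu
  have h2 := h.sq
  have h3 : 0 ≤ Real.log n := Real.log_natCast_nonneg n
  have h4 := norm_nonneg (u - Complex.log l)
  constructor
  · nlinarith
  · have : ‖u - Complex.log l‖ ^ 2 ≤ (2 * Real.log n + 8) ^ 2 := by
      apply pow_le_pow_left₀ h4; linarith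
    linarith

theorem Big.bound (h : Big n m) {l : ℂ} (hl : l ∈ closedBall (Lg n m : ℂ) (Lg n m / 2)) :
    ∀ i < m, ‖U n l i - (Lg n (i + 1) : ℝ)‖ ≤ 4 ∧
      G n l (U n l i) ∈ closedBall (Lg n (i + 1) : ℂ) (Lg n (i + 1) / 2) := by
  have hn1 : 1 ≤ n := by have := h.n1; omega
  have key : ∀ i < m, ‖U n l i - (Lg n (i + 1) : ℝ)‖ ≤ 4 →
      G n l (U n l i) ∈ closedBall (Lg n (i + 1) : ℂ) (Lg n (i + 1) / 2) := by
    intro i hi hu
    have h1 := G_near hn1 (h.half hl hi hu).2
    have h2 := h.log_l hl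
    have h3 := h.gap
    have h4 : Lg n m ≤ Lg n (i + 1) := h.anti (by omega) (by omega)
    rw [mem_closedBall, dist_eq_norm]
    have h5 : G n l (U n l i) - (Lg n (i + 1) : ℂ) =
        (G n l (U n l i) - (U n l i - Complex.log l)) + (U n l i - (Lg n (i + 1) : ℝ))
          - Complex.log l := by ring
    rw [h5]
    refine (norm_sub_le _ _).trans ?_
    have h6 := norm_add_le (G n l (U n l i) - (U n l i - Complex.log l))
      (U n l i - (Lg n (i + 1) : ℝ))
    linarith
  intro i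
  induction i with
  | zero =>
    intro hi
    have h0 : ‖U n l 0 - (Lg n (0 + 1) : ℝ)‖ ≤ 4 := by
      simp only [U, zero_add, Lg_one, add_sub_cancel_left, norm_mul, Complex.norm_real,
        Complex.norm_I, mul_one, Real.norm_eq_abs, abs_of_pos Real.pi_pos]
      exact Real.pi_le_four
    exact ⟨h0, key 0 hi h0⟩
  | succ i ih =>
    intro hi
    have h1 := ih (by omega)
    have h0 : ‖U n l (i + 1) - (Lg n (i + 1 + 1) : ℝ)‖ ≤ 4 := by
      have h2 := near_log (by linarith [h.l16 (i + 1) (by omega)]) h1.2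
      rw [← Lg_succ] at h2
      simp only [U]
      linarith
    exact ⟨h0, key (i + 1) hi h0⟩

theorem Big.lip (h : Big n m) {l l' : ℂ} (hl : l ∈ closedBall (Lg n m : ℂ) (Lg n m / 2))
    (hl' : l' ∈ closedBall (Lg n m : ℂ) (Lg n m / 2)) :
    ∀ i < m, ‖G n l (U n l i) - G n l' (U n l' i)‖ ≤ 1 / 2 * ‖l - l'‖ := by
  have hn1 : 1 ≤ n := by have := h.n1; omega
  have hm := h.l16 m le_rfl
  have hlog := log_lip (by linarith) hl hl'
  have h8 : 2 / Lg n m ≤ 1 / 8 := by
    rw [div_le_iff₀ (by linarith)]; linarith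
  have hd := norm_nonneg (l - l')
  have hlog' : ‖Complex.log l - Complex.log l'‖ ≤ 1 / 8 * ‖l - l'‖ := by
    refine hlog.trans ?_
    gcongr
  intro i
  induction i with
  | zero =>
    intro hi
    have h1 := G_lip hn1 (h.half hl hi (h.bound hl 0 hi).1).1 (h.half hl' hi (h.bound hl' 0 hi).1).1
    have h2 : ‖U n l 0 - U n l' 0‖ = 0 := by simp [U]
    rw [h2] at h1
    linarith
  | succ i ih =>
    intro hi
    have h0 := ih (by omega)
    have h1 := G_lip hn1 (h.half hl hi (h.bound hl (i + 1) hi).1).1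
      (h.half hl' hi (h.bound hl' (i + 1) hi).1).1
    have hi1 := h.l16 (i + 1) (by omega)
    have h2 : ‖U n l (i + 1) - U n l' (i + 1)‖ ≤
        2 / Lg n (i + 1) * ‖G n l (U n l i) - G n l' (U n l' i)‖ := by
      simp only [U]
      exact log_lip (by linarith) (h.bound hl i (by omega)).2 (h.bound hl' i (by omega)).2
    have h3 : 2 / Lg n (i + 1) ≤ 1 / 8 := by
      rw [div_le_iff₀ (by linarith)]; linarith
    have h4 : 2 / Lg n (i + 1) * ‖G n l (U n l i) - G n l' (U n l' i)‖ ≤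
        1 / 8 * (1 / 2 * ‖l - l'‖) := by
      apply mul_le_mul h3 h0 (norm_nonneg _) (by norm_num)
    linarith

/-- the fixed point -/
theorem Big.fix (h : Big n m) : ∃ l ∈ closedBall (Lg n m : ℂ) (Lg n m / 2),
    G n l (U n l (m - 1)) = l := by
  have hm1 : m - 1 < m := by have := h.m1; omega
  have hmm : m - 1 + 1 = m := by have := h.m1; omega
  set B := closedBall (Lg n m : ℂ) (Lg n m / 2) with hB
  have hmaps : MapsTo (fun l => G n l (U n l (m - 1))) B B := by
    intro l hl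
    have := (h.bound hl (m - 1) hm1).2
    rwa [hmm] at this
  have hcomp : IsComplete B := isClosed_closedBall.isComplete
  have hcon : ContractingWith (1 / 2) (hmaps.restrict (fun l => G n l (U n l (m - 1))) B B) := by
    refine ⟨by norm_num, ?_⟩
    apply LipschitzWith.of_dist_le_mul
    rintro ⟨l, hl⟩ ⟨l', hl'⟩
    have := h.lip hl hl' (m - 1) hm1
    rw [Subtype.dist_eq, Subtype.dist_eq, dist_eq_norm, dist_eq_norm]
    simpa using this
  have h16 := h.l16 m le_rfl
  have hx : (Lg n m : ℂ) ∈ B := mem_closedBall_self (by linarith)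
  obtain ⟨y, hy, hfy, -⟩ := hcon.exists_fixedPoint' hcomp hmaps hx (edist_ne_top _ _)
  exact ⟨y, hy, hfy⟩

end Pool.Agent.Y272
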