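import Mathlib
import Pool.Agent.Y272.Est

/-!
# Lower bounds for the modulus of local connectivity of the Multibrot sets (helper272)
-/

set_option autoImplicit false

open Complex Set Topology Filter Bornology N62a1eb23 Metric

namespace Pool.Agent.Y272

open Pool.Agent.H712R2

theorem im_G {n : ℕ} (hn : 1 ≤ n) (l u : ℂ) :
    (G n l u).im = n * Real.exp ((u - Complex.log l) / n).re *
      Real.sin ((u.im - l.arg) / n) := by
  have hnC : (n : ℂ) ≠ 0 := by
    have : n ≠ 0 := by omega
    exact_mod_cast this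
  unfold G
  have h1 : ((u - Complex.log l) / n).im = (u.im - l.arg) / n := by
    rw [Complex.div_natCast_im, Complex.sub_im, Complex.log_im]
  have h2 : ((n : ℂ) * (Complex.exp ((u - Complex.log l) / n) - 1)).im =
      n * (Complex.exp ((u - Complex.log l) / n)).im := by
    simp [Complex.mul_im]
  rw [h2, Complex.exp_im, h1]
  ring

variable {n m : ℕ}

theorem Big.exp_re (h : Big n m) {l u : ℂ} (hl : l ∈ closedBall (Lg n m : ℂ) (Lg n m / 2))
    {i : ℕ} (hi : i < m) (hu : ‖u - (Lg n (i + 1) : ℝ)‖ ≤ 4) :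
    Real.exp ((u - Complex.log l) / n).re ≤ 2 := by
  have hn : (0 : ℝ) < n := by
    have := h.n1
    have : 0 < n := by omega
    exact_mod_cast this
  have h1 := (h.half hl hi hu).1
  have h2 : ‖(u - Complex.log l) / n‖ ≤ 1 / 2 := by
    rw [norm_div, Complex.norm_natCast, div_le_iff₀ hn]; linarith
  have h3 : ((u - Complex.log l) / n).re ≤ 1 / 2 := (Complex.re_le_norm _).trans h2
  calc Real.exp _ ≤ Real.exp (1 / 2) := Real.exp_le_exp.mpr h3
    _ ≤ 2 := by
      have h2 := Real.exp_one_lt_d9
      have h3 : Real.exp (1 / 2) ^ 2 = Real.exp 1 := by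
        rw [← Real.exp_nat_mul]; norm_num
      nlinarith [Real.exp_pos (1 / 2)]

theorem U_zero_im (n : ℕ) (l : ℂ) : (U n l 0).im = Real.pi := by
  unfold U
  rw [Complex.add_im, Complex.ofReal_im, Complex.mul_im]
  simp

theorem U_im_abs (n : ℕ) (l : ℂ) (i : ℕ) : |(U n l i).im| ≤ Real.pi := by
  cases i with
  | zero => rw [U_zero_im, abs_of_pos Real.pi_pos]
  | succ i => simp only [U, Complex.log_im]; exact Complex.abs_arg_le_pi _

theorem arg_le_div {z : ℂ} (hre : 0 < z.re) (him : 0 ≤ z.im) : z.arg ≤ z.im / z.re := by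
  rw [← Complex.tan_arg]
  apply Real.le_tan
  · exact Complex.arg_nonneg_iff.mpr him
  · have := (Complex.abs_arg_lt_pi_div_two_iff (z := z)).mpr (Or.inl hre)
    exact (abs_lt.mp this).2

/-- sign of the imaginary part after a backward step -/
theorem Big.sign (h : Big n m) (l : ℂ) (i : ℕ) :
    (l.arg < (U n l i).im → 0 < (G n l (U n l i)).im) ∧
    ((U n l i).im ≤ l.arg → (G n l (U n l i)).im ≤ 0) := by
  have hn16 := h.n1
  have hn1 : 1 ≤ n := by omega
  have hn : (16 : ℝ) ≤ n := by exact_mod_cast hn16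
  have hpi := Real.pi_pos
  have h1 := abs_le.mp (U_im_abs n l i)
  have h2 := abs_le.mp (Complex.abs_arg_le_pi l)
  rw [im_G hn1]
  have hpos : 0 < (n : ℝ) * Real.exp ((U n l i - Complex.log l) / n).re := by positivity
  constructor
  · intro h3
    apply mul_pos hpos
    apply Real.sin_pos_of_pos_of_lt_pi
    · apply div_pos _ (by linarith); linarith
    · rw [div_lt_iff₀ (by linarith)]; nlinarith
  · intro h3
    apply mul_nonpos_of_nonneg_of_nonpos hpos.le
    apply Real.sin_nonpos_of_nonpos_of_neg_pi_le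
    · apply div_nonpos_of_nonpos_of_nonneg _ (by linarith); linarith
    · rw [le_div_iff₀ (by linarith)]; nlinarith

/-- the arguments of the backward orbit -/
theorem Big.arg_bound (h : Big n m) {l : ℂ} (hl : l ∈ closedBall (Lg n m : ℂ) (Lg n m / 2))
    (hfix : G n l (U n l (m - 1)) = l) :
    0 < l.arg ∧ l.arg ≤ Real.pi * 4 ^ m / ∏ j ∈ Finset.range m, Lg n (j + 1) := by
  have hmm : m - 1 + 1 = m := by have := h.m1; omega
  have hm1 : m - 1 < m := by have := h.m1; omega
  have hUm : (U n l m).im = l.arg := by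
    rw [← hmm]; simp only [U, Complex.log_im]; rw [hfix]
  have hpos : 0 < l.arg := by
    by_contra hcon
    push Not at hcon
    have key : ∀ i ≤ m, 0 < (U n l i).im := by
      intro i
      induction i with
      | zero => intro _; rw [U_zero_im]; exact Real.pi_pos
      | succ i ih =>
        intro hi
        have h1 := (h.sign l i).1 (lt_of_le_of_lt hcon (ih (by omega)))
        simp only [U, Complex.log_im]
        rcases (Complex.arg_nonneg_iff.mpr h1.le).lt_or_eq with h2 | h2
        · exact h2
        · exfalso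
          rw [eq_comm, Complex.arg_eq_zero_iff] at h2
          linarith [h2.2]
    have := key m le_rfl
    rw [hUm] at this
    linarith
  refine ⟨hpos, ?_⟩
  have hprod : ∀ i ≤ m, 0 < ∏ j ∈ Finset.range i, Lg n (j + 1) := by
    intro i hi
    apply Finset.prod_pos
    intro j hj
    rw [Finset.mem_range] at hj
    linarith [h.l16 (j + 1) (by omega)]
  have key : ∀ i ≤ m, (U n l i).im ≤ Real.pi * 4 ^ i / ∏ j ∈ Finset.range i, Lg n (j + 1) := by
    intro i
    induction i with
    | zero => intro _; rw [U_zero_im]; simp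
    | succ i ih =>
      intro hi
      have h1 := ih (by omega)
      have hP := hprod i (by omega)
      have hP' := hprod (i + 1) hi
      have hB := h.bound hl i (by omega)
      have hre := ball_re hB.2
      have hL := h.l16 (i + 1) (by omega)
      have hnn : 0 ≤ Real.pi * 4 ^ (i + 1) / ∏ j ∈ Finset.range (i + 1), Lg n (j + 1) := by
        have := Real.pi_pos
        positivity
      have hU : (U n l (i + 1)).im = (G n l (U n l i)).arg := by simp only [U, Complex.log_im]
      rw [hU]
      rcases le_or_gt (U n l i).im l.arg with h2 | h2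
      · have h3 := (h.sign l i).2 h2
        refine le_trans ?_ hnn
        rcases h3.lt_or_eq with h4 | h4
        · exact (Complex.arg_neg_iff.mpr h4).le
        · rw [Complex.arg_eq_zero_iff.mpr ⟨by linarith, h4⟩]
      · have h3 := (h.sign l i).1 h2
        have h4 := arg_le_div (by linarith) h3.le
        have hn1 : 1 ≤ n := by have := h.n1; omega
        have hn : (0 : ℝ) < n := by exact_mod_cast hn1
        have h5 : (G n l (U n l i)).im ≤ 2 * (U n l i).im := by
          rw [im_G hn1]
          have h6 := h.exp_re hl (by omega : i < m) hB.1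
          have h7 : Real.sin (((U n l i).im - l.arg) / n) ≤ (U n l i).im / n := by
            refine (Real.sin_le (by apply div_nonneg _ hn.le; linarith)).trans ?_
            apply div_le_div_of_nonneg_right _ hn.le
            linarith
          have h8 : 0 < (U n l i).im := lt_trans hpos h2
          calc n * Real.exp ((U n l i - Complex.log l) / n).re *
                Real.sin (((U n l i).im - l.arg) / n)
              ≤ n * Real.exp ((U n l i - Complex.log l) / n).re * ((U n l i).im / n) := by
                gcongr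
            _ ≤ n * 2 * ((U n l i).im / n) := by gcongr
            _ = 2 * (U n l i).im := by field_simp
        have h8 : 0 < (U n l i).im := lt_trans hpos h2
        have hrepos : 0 < (G n l (U n l i)).re := by linarith
        calc (G n l (U n l i)).arg ≤ (G n l (U n l i)).im / (G n l (U n l i)).re := h4
          _ ≤ 2 * (U n l i).im / (Lg n (i + 1) / 2) := by gcongr
          _ = 4 * (U n l i).im / Lg n (i + 1) := by ring
          _ ≤ 4 * (Real.pi * 4 ^ i / ∏ j ∈ Finset.range i, Lg n (j + 1)) / Lg n (i + 1) := by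
              gcongr
          _ = _ := by
              rw [Finset.prod_range_succ, pow_succ]
              field_simp
  have := key m le_rfl
  rwa [hUm] at this

/-- A connected subset of the Multibrot set containing `c` and its conjugate is large. -/
theorem crossing {n : ℕ} (hn : 2 ≤ n) {c : ℂ} (hre : 0 ≤ c.re)
    (him : 0 ≤ c.im) {S : Set ℂ} (hS : S ⊆ multibrotSet n) (hSc : IsPreconnected S)
    (h1 : c ∈ S) (h2 : (starRingEnd ℂ) c ∈ S) : ‖c‖ - rr n ≤ Metric.diam S := by
  have hbdd : Bornology.IsBounded S := (isCompact_multibrot hn).isBounded.subset hS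
  obtain ⟨s, hs, hs0⟩ := hSc.intermediate_value h2 h1 Complex.continuous_im.continuousOn
    (show (0 : ℝ) ∈ Icc ((starRingEnd ℂ) c).im c.im by
      rw [Complex.conj_im]; constructor <;> linarith)
  have hsr : s = ((s.re : ℝ) : ℂ) := by
    apply Complex.ext <;> simp [hs0]
  have hsle : s.re ≤ rr n := by
    by_contra h
    push Not at h
    apply real_escape hn h
    rw [← hsr]
    exact hS hs
  refine le_trans ?_ (Metric.dist_le_diam_of_mem hbdd h1 hs)
  have hrr := rr_pos hn
  rcases le_or_gt 0 s.re with h3 | h3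
  · rw [dist_eq_norm]
    have h4 := norm_sub_norm_le c s
    have h5 : ‖s‖ = s.re := by
      rw [hsr, Complex.norm_real, Real.norm_eq_abs, Complex.ofReal_re, abs_of_nonneg h3]
    rw [h5] at h4
    linarith
  · have h4 : ‖c‖ ≤ dist c s := by
      rw [dist_eq_norm]
      rw [hsr]
      apply Real.le_sqrt_of_sq_le _ |>.trans_eq (Complex.norm_def _).symm
      rw [Complex.sq_norm, Complex.normSq_apply, Complex.normSq_apply]
      simp only [Complex.sub_re, Complex.sub_im, Complex.ofReal_re, Complex.ofReal_im]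
      nlinarith
    linarith

theorem gap_bound {n : ℕ} (hn : 2 ≤ n) {t : ℝ} (ht : 0 ≤ t)
    (hlog : t * Real.log n ≤ n - 1) :
    (t - 1) / n ≤ Real.exp ((t - Real.log n) / (n - 1)) - rr n := by
  have hnr : (2 : ℝ) ≤ n := by exact_mod_cast hn
  have h0 : (0 : ℝ) < (n : ℝ) - 1 := by linarith
  have h1 : Real.exp ((t - Real.log n) / (n - 1)) = sr n * Real.exp (t / (n - 1)) := by
    unfold sr
    rw [← Real.exp_add]
    congr 1
    ring
  have h2 : rr n ≤ sr n := by
    unfold rr
    have := pow_nonneg (sr_pos n).le n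
    linarith
  have h3 := Real.add_one_le_exp (t / ((n : ℝ) - 1))
  have h4 := sr_ge n
  have h5 := sr_pos n
  have h6 : 0 ≤ t / ((n : ℝ) - 1) := by positivity
  have h7 : sr n * (t / (n - 1)) ≤ Real.exp ((t - Real.log n) / (n - 1)) - rr n := by
    rw [h1]
    nlinarith
  refine le_trans ?_ h7
  have h8 : (1 - Real.log n / (n - 1)) * (t / (n - 1)) ≤ sr n * (t / (n - 1)) := by gcongr
  refine le_trans ?_ h8
  have h9 : (t - 1) / n ≤ t / n - (t * Real.log n / (n - 1)) / n := by
    rw [← sub_div]
    apply div_le_div_of_nonneg_right _ (by linarith)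
    have : t * Real.log n / ((n : ℝ) - 1) ≤ 1 := by rw [div_le_one h0]; linarith
    linarith
  refine h9.trans ?_
  rcases le_or_gt (Real.log n / ((n : ℝ) - 1)) 1 with h10 | h10
  · have e : t / n - (t * Real.log n / (n - 1)) / n =
        (1 - Real.log n / (n - 1)) * (t / n) := by field_simp
    rw [e]
    apply mul_le_mul_of_nonneg_left _ (by linarith)
    apply div_le_div_of_nonneg_left ht h0 (by linarith)
  · exfalso
    rw [lt_div_iff₀ h0] at h10
    have h11 := Real.log_le_sub_one_of_pos (show (0:ℝ) < n by linarith)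
    linarith

/-- The lower bound, for periods at least three. -/
theorem Big.low (h : Big n m) : ∃ x ∈ multibrotSet n, (starRingEnd ℂ) x ∈ multibrotSet n ∧
    dist x ((starRingEnd ℂ) x) ≤ 8 * Real.pi * 4 ^ m / (n * ∏ j ∈ Finset.range m, Lg n (j + 1)) ∧
    ∀ S ⊆ multibrotSet n, IsPreconnected S → x ∈ S → (starRingEnd ℂ) x ∈ S →
      (Lg n (m + 1) - 2) / n ≤ Metric.diam S := by
  obtain ⟨l, hl, hfix⟩ := h.fix
  have hm1 : m - 1 < m := by have := h.m1; omega
  have hn16 := h.n1
  have hn2 : 2 ≤ n := by omega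
  have hn : (16 : ℝ) ≤ n := by exact_mod_cast hn16
  have hn0 : (0 : ℝ) < (n : ℝ) - 1 := by linarith
  have hpi := Real.pi_pos
  have hL := h.l16 m le_rfl
  have hre := ball_re hl
  have hl0 : l ≠ 0 := by rintro rfl; simp at hre; linarith
  have hlpos : 0 < ‖l‖ := norm_pos_iff.mpr hl0
  obtain ⟨ha0, ha1⟩ := h.arg_bound hl hfix
  have hcast : ((n - 1 : ℕ) : ℂ) = (n : ℂ) - 1 := by
    rw [Nat.cast_sub (by omega)]; simp
  have hnC : (n : ℂ) - 1 ≠ 0 := by
    have : (((n : ℝ) - 1 : ℝ) : ℂ) ≠ 0 := by exact_mod_cast hn0.ne'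
    simpa using this
  have hnC0 : (n : ℂ) ≠ 0 := by
    have : n ≠ 0 := by omega
    exact_mod_cast this
  set e : ℂ := (Complex.log l - (Real.log n : ℝ)) / ((n : ℂ) - 1) with he
  have he' : e = (Complex.log l - (Real.log n : ℝ)) / (((n : ℝ) - 1 : ℝ) : ℂ) := by
    rw [he]; push_cast; rfl
  have here : e.re = (Real.log ‖l‖ - Real.log n) / ((n : ℝ) - 1) := by
    rw [he', Complex.div_ofReal_re, Complex.sub_re, Complex.log_re, Complex.ofReal_re]
  have heim : e.im = l.arg / ((n : ℝ) - 1) := by
    rw [he', Complex.div_ofReal_im, Complex.sub_im, Complex.log_im, Complex.ofReal_im, sub_zero]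
  set c : ℂ := Complex.exp e with hc
  have hcn : (n : ℂ) * c ^ (n - 1) = l := by
    rw [hc, ← Complex.exp_nat_mul, hcast, he, mul_div_cancel₀ _ hnC, Complex.exp_sub,
      Complex.exp_log hl0, ← Complex.ofReal_exp, Real.exp_log (by linarith)]
    push_cast
    field_simp
  have hX : X n l (m + 1) = -n := by
    have h1 := orbit (k := m - 1) hn2 hl0 (fun i hi => by
      have h2 := ball_re (h.bound hl i (by omega)).2
      have h3 := h.l16 (i + 1) (by omega)
      intro h4
      rw [h4, Complex.zero_re] at h2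
      linarith) hfix
    have h2 : m - 1 + 2 = m + 1 := by have := h.m1; omega
    rwa [h2] at h1
  have hP : P n (m + 1 + 1) c = 0 := by
    rw [P_eq hn2 hcn, hX]
    field_simp
    ring
  have hcM : c ∈ multibrotSet n := mem_of_periodic (by omega) hP
  have hcM' : (starRingEnd ℂ) c ∈ multibrotSet n := by
    apply mem_of_periodic (m := m + 1 + 1) (by omega)
    have : ∀ k, P n k ((starRingEnd ℂ) c) = (starRingEnd ℂ) (P n k c) := by
      intro k
      induction k with
      | zero => simp [P_zero]
      | succ k ih => rw [P_succ, P_succ, ih, map_add, map_pow]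
    rw [this, hP, map_zero]
  have hargpi : l.arg < Real.pi / 2 := by
    have := (Complex.abs_arg_lt_pi_div_two_iff (z := l)).mpr (Or.inl (by linarith))
    exact (abs_lt.mp this).2
  have hφ0 : 0 < l.arg / ((n : ℝ) - 1) := by positivity
  have hφ1 : l.arg / ((n : ℝ) - 1) < Real.pi / 2 := by
    rw [div_lt_iff₀ hn0]; nlinarith
  have hcre : 0 ≤ c.re := by
    rw [hc, Complex.exp_re, heim]
    have := Real.cos_pos_of_mem_Ioo (x := l.arg / ((n : ℝ) - 1)) ⟨by linarith, hφ1⟩
    positivity
  have hcimeq : c.im = ‖c‖ * Real.sin (l.arg / ((n : ℝ) - 1)) := by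
    rw [hc, Complex.exp_im, Complex.norm_exp, heim]
  have hsin0 := Real.sin_pos_of_pos_of_lt_pi hφ0 (by linarith)
  have hcim : 0 ≤ c.im := by
    rw [hcimeq]; positivity
  have hnormc : ‖c‖ = Real.exp ((Real.log ‖l‖ - Real.log n) / ((n : ℝ) - 1)) := by
    rw [hc, Complex.norm_exp, here]
  have hprod : 0 < ∏ j ∈ Finset.range m, Lg n (j + 1) := by
    apply Finset.prod_pos
    intro j hj
    rw [Finset.mem_range] at hj
    linarith [h.l16 (j + 1) (by omega)]
  refine ⟨c, hcM, hcM', ?_, ?_⟩
  · have h1 : dist c ((starRingEnd ℂ) c) = 2 * c.im := by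
      rw [Complex.dist_self_conj, abs_of_nonneg hcim]
    rw [h1, hcimeq]
    have h2 := norm_le_two hn2 hcM
    have h3 := Real.sin_le hφ0.le
    have h4 : ((n : ℝ) - 1)⁻¹ ≤ 2 * (n : ℝ)⁻¹ := by
      rw [inv_le_comm₀ hn0 (by positivity), mul_inv, inv_inv]
      linarith
    calc 2 * (‖c‖ * Real.sin (l.arg / ((n : ℝ) - 1)))
        ≤ 2 * (2 * (l.arg / ((n : ℝ) - 1))) := by gcongr
      _ = 4 * l.arg * ((n : ℝ) - 1)⁻¹ := by ring
      _ ≤ 4 * l.arg * (2 * (n : ℝ)⁻¹) := by gcongr
      _ = 8 * l.arg / n := by ring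
      _ ≤ 8 * (Real.pi * 4 ^ m / ∏ j ∈ Finset.range m, Lg n (j + 1)) / n := by gcongr
      _ = _ := by field_simp
  · intro S hS hSc h1 h2
    refine le_trans ?_ (crossing hn2 hcre hcim hS hSc h1 h2)
    rw [hnormc]
    have hlogl : Lg n (m + 1) - 1 ≤ Real.log ‖l‖ := by
      have h3 : Lg n m / 2 ≤ ‖l‖ := hre.trans (Complex.re_le_norm l)
      have h4 : Real.log (Lg n m / 2) ≤ Real.log ‖l‖ := Real.log_le_log (by linarith) h3
      rw [Real.log_div (by linarith) (by norm_num), ← Lg_succ] at h4
      have h5 := Real.log_two_lt_d9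
      linarith
    have hl1 : 1 ≤ ‖l‖ := by
      have h3 : Lg n m / 2 ≤ ‖l‖ := hre.trans (Complex.re_le_norm l)
      linarith
    have hlogu : Real.log ‖l‖ ≤ Real.log n + 1 := by
      have h3 := h.log_l hl
      have h4 := (Complex.re_le_norm (Complex.log l)).trans h3
      rw [Complex.log_re] at h4
      have h5 : Lg n (m + 1) ≤ Lg n 1 := h.anti (by omega) (by omega)
      rw [Lg_one] at h5
      linarith
    have hsq := h.sq
    have hln : 0 ≤ Real.log n := Real.log_natCast_nonneg n
    have h6 := gap_bound hn2 (t := Real.log ‖l‖) (Real.log_nonneg hl1) (by nlinarith)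
    refine le_trans ?_ h6
    apply div_le_div_of_nonneg_right _ (by linarith)
    linarith

theorem tendsto_Lg (i : ℕ) : Tendsto (fun n : ℕ => Lg n i) atTop atTop := by
  induction i with
  | zero => exact tendsto_natCast_atTop_atTop
  | succ i ih =>
    simp only [Lg_succ]
    exact Real.tendsto_log_atTop.comp ih

theorem eventually_big (m : ℕ) (hm : 1 ≤ m) : ∀ᶠ n : ℕ in atTop, Big n m := by
  have h1 : ∀ᶠ n : ℕ in atTop, ∀ i ≤ m, 16 ≤ Lg n i := by
    exact (eventually_all_finite (Set.finite_le_nat m)).mpr fun i _ =>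
      (tendsto_Lg i).eventually (eventually_ge_atTop 16)
  have h2 : ∀ᶠ n : ℕ in atTop, Lg n (m + 1) + 8 ≤ Lg n m / 2 := by
    have h3 : ∀ᶠ x : ℝ in atTop, Real.log x + 8 ≤ x / 2 := by
      have h4 := Real.isLittleO_log_id_atTop.def (show (0 : ℝ) < 1 / 4 by norm_num)
      filter_upwards [h4, eventually_ge_atTop 32] with x hx hx32
      rw [id, Real.norm_eq_abs, Real.norm_eq_abs, abs_of_nonneg (show (0:ℝ) ≤ x by linarith)] at hx
      have := le_abs_self (Real.log x)
      linarith
    have h4 := (tendsto_Lg m).eventually h3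
    simpa only [Lg_succ] using h4
  have h3 : ∀ᶠ n : ℕ in atTop, (2 * Real.log n + 8) ^ 2 ≤ n := by
    have h4 : ∀ᶠ x : ℝ in atTop, (2 * Real.log x + 8) ^ 2 ≤ x := by
      have h5 := (isLittleO_log_rpow_atTop (show (0 : ℝ) < 1 / 2 by norm_num)).def
        (show (0 : ℝ) < 1 / 4 by norm_num)
      filter_upwards [h5, eventually_ge_atTop 256] with x hx hx2
      have hx0 : (0:ℝ) ≤ x := by linarith
      have h6 : x ^ (1 / 2 : ℝ) = √x := (Real.sqrt_eq_rpow x).symm
      rw [h6, Real.norm_eq_abs, Real.norm_eq_abs, abs_of_nonneg (Real.sqrt_nonneg x)] at hx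
      have h7 := le_abs_self (Real.log x)
      have h8 : 16 ≤ √x := by
        rw [Real.le_sqrt (by norm_num) hx0]; linarith
      have h9 : 0 ≤ Real.log x := Real.log_nonneg (by linarith)
      have h10 : 2 * Real.log x + 8 ≤ √x := by linarith
      calc (2 * Real.log x + 8) ^ 2 ≤ (√x) ^ 2 := by
            apply pow_le_pow_left₀ (by linarith) h10
        _ = x := Real.sq_sqrt hx0
    exact tendsto_natCast_atTop_atTop.eventually h4
  filter_upwards [h1, h2, h3] with n h1 h2 h3
  exact ⟨hm, h1, h2, h3⟩

end Pool.Agent.Y272
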