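import Mathlib
import Pool.Agent.Y272.Low

/-!
# Sharp coarse local connectivity of the Multibrot sets (helper272)
-/

set_option autoImplicit false

open Complex Set Topology Filter Bornology N62a1eb23 Metric

namespace Pool.Agent.Y272

open Pool.Agent.H712R2

/-- The lower bound at period two. -/
theorem low_zero {n : ℕ} (hn : 3 ≤ n) (hlog : Real.log n * Real.log n ≤ n - 1) :
    ∃ x ∈ multibrotSet n, (starRingEnd ℂ) x ∈ multibrotSet n ∧
    dist x ((starRingEnd ℂ) x) ≤ 8 * Real.pi / n ∧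
    ∀ S ⊆ multibrotSet n, IsPreconnected S → x ∈ S → (starRingEnd ℂ) x ∈ S →
      (Real.log n - 2) / n ≤ Metric.diam S := by
  have hn2 : 2 ≤ n := by omega
  have hnr : (3 : ℝ) ≤ n := by exact_mod_cast hn
  have hn0 : (0 : ℝ) < (n : ℝ) - 1 := by linarith
  have hpi := Real.pi_pos
  have hcast : ((n - 1 : ℕ) : ℂ) = (n : ℂ) - 1 := by
    rw [Nat.cast_sub (by omega)]; simp
  have hnC : (n : ℂ) - 1 ≠ 0 := by
    have : (((n : ℝ) - 1 : ℝ) : ℂ) ≠ 0 := by exact_mod_cast hn0.ne'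
    simpa using this
  set φ : ℝ := Real.pi / ((n : ℝ) - 1) with hφ
  have hφ0 : 0 < φ := by positivity
  have hφ1 : φ ≤ Real.pi / 2 := by
    rw [hφ]; apply div_le_div_of_nonneg_left hpi.le (by norm_num); linarith
  set c : ℂ := Complex.exp ((φ : ℂ) * I) with hc
  have hcn : c ^ (n - 1) = -1 := by
    rw [hc, ← Complex.exp_nat_mul, hcast, hφ]
    push_cast
    rw [← Complex.exp_pi_mul_I]
    congr 1
    field_simp
  have hP : P n 2 c = 0 := by
    rw [P_succ, P_one hn2]
    have : c ^ n = c ^ (n - 1) * c := by rw [← pow_succ]; congr 1; omega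
    rw [this, hcn]; ring
  have hcM : c ∈ multibrotSet n := mem_of_periodic (by omega) hP
  have hcM' : (starRingEnd ℂ) c ∈ multibrotSet n := by
    apply mem_of_periodic (m := 2) (by omega)
    have : ∀ k, P n k ((starRingEnd ℂ) c) = (starRingEnd ℂ) (P n k c) := by
      intro k
      induction k with
      | zero => simp [P_zero]
      | succ k ih => rw [P_succ, P_succ, ih, map_add, map_pow]
    rw [this, hP, map_zero]
  have hcre : 0 ≤ c.re := by
    rw [hc, Complex.exp_ofReal_mul_I_re]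
    exact Real.cos_nonneg_of_mem_Icc ⟨by linarith, hφ1⟩
  have hcimeq : c.im = Real.sin φ := by rw [hc, Complex.exp_ofReal_mul_I_im]
  have hcim : 0 ≤ c.im := by
    rw [hcimeq]
    exact (Real.sin_pos_of_pos_of_lt_pi hφ0 (by linarith)).le
  have hnormc : ‖c‖ = 1 := by rw [hc, Complex.norm_exp_ofReal_mul_I]
  refine ⟨c, hcM, hcM', ?_, ?_⟩
  · have h1 : dist c ((starRingEnd ℂ) c) = 2 * c.im := by
      rw [Complex.dist_self_conj, abs_of_nonneg hcim]
    rw [h1, hcimeq]
    have h3 := Real.sin_le hφ0.le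
    have h4 : ((n : ℝ) - 1)⁻¹ ≤ 2 * (n : ℝ)⁻¹ := by
      rw [inv_le_comm₀ hn0 (by positivity), mul_inv, inv_inv]
      linarith
    calc 2 * Real.sin φ ≤ 2 * φ := by linarith
      _ = 2 * Real.pi * ((n : ℝ) - 1)⁻¹ := by rw [hφ]; ring
      _ ≤ 2 * Real.pi * (2 * (n : ℝ)⁻¹) := by gcongr
      _ ≤ 8 * Real.pi / n := by
        rw [div_eq_mul_inv]
        have : 0 ≤ Real.pi * (n : ℝ)⁻¹ := by positivity
        nlinarith
  · intro S hS hSc h1 h2
    refine le_trans ?_ (crossing hn2 hcre hcim hS hSc h1 h2)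
    have h6 := gap_bound hn2 (t := Real.log n) (Real.log_natCast_nonneg n) hlog
    rw [sub_self, zero_div, Real.exp_zero] at h6
    rw [hnormc]
    refine le_trans ?_ h6
    apply div_le_div_of_nonneg_right _ (by linarith)
    linarith

theorem unit_dist {e f : ℂ} (he : ‖e‖ = 1) (hf : ‖f‖ = 1) {r r' ρ : ℝ} (hρ : 0 ≤ ρ)
    (hr : ρ ≤ r) (hr' : ρ ≤ r') : ρ * ‖e - f‖ ≤ ‖(r : ℂ) * e - (r' : ℂ) * f‖ := by
  have he2 : e.re ^ 2 + e.im ^ 2 = 1 := by
    have := Complex.sq_norm e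
    rw [he, Complex.normSq_apply] at this
    nlinarith
  have hf2 : f.re ^ 2 + f.im ^ 2 = 1 := by
    have := Complex.sq_norm f
    rw [hf, Complex.normSq_apply] at this
    nlinarith
  rw [← sq_le_sq₀ (by positivity) (norm_nonneg _)]
  rw [mul_pow, Complex.sq_norm, Complex.sq_norm, Complex.normSq_apply, Complex.normSq_apply]
  simp only [Complex.sub_re, Complex.sub_im, Complex.mul_re, Complex.mul_im, Complex.ofReal_re,
    Complex.ofReal_im, zero_mul, sub_zero, add_zero]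
  have h1 : (r * e.re - r' * f.re) * (r * e.re - r' * f.re) +
      (r * e.im - r' * f.im) * (r * e.im - r' * f.im) -
      ρ ^ 2 * ((e.re - f.re) * (e.re - f.re) + (e.im - f.im) * (e.im - f.im)) =
      (r - r') ^ 2 + (r * r' - ρ ^ 2) * ((e.re - f.re) ^ 2 + (e.im - f.im) ^ 2) := by
    linear_combination (r ^ 2 - r * r') * he2 + (r' ^ 2 - r * r') * hf2
  have h2 : 0 ≤ (r * r' - ρ ^ 2) * ((e.re - f.re) ^ 2 + (e.im - f.im) ^ 2) := by
    apply mul_nonneg _ (by positivity)
    have : ρ * ρ ≤ r * r' := mul_le_mul hr hr' hρ (hρ.trans hr)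
    nlinarith
  nlinarith [sq_nonneg (r - r')]

/-- `V` is a small piece around `x` -/
def Piece (d : ℕ) (x : ℂ) (V : Set ℂ) : Prop :=
  V = {x} ∨ (rr d < ‖x‖ ∧ ∀ a ∈ V, rr d ≤ ‖a‖ ∧ ‖a‖ ≤ 1 + 1 / ((d : ℝ) - 1) ∧
    ‖a - (‖a‖ : ℂ) * (x / ‖x‖)‖ ≤ 4 * Real.pi / ((d : ℝ) - 1))

theorem exists_piece2 {d : ℕ} (hd : 2 ≤ d) {x : ℂ} (hx : x ∈ multibrotSet d) :
    ∃ V : Set ℂ, ∃ x' : ℂ, IsPreconnected V ∧ V ⊆ multibrotSet d ∧ x ∈ V ∧ x' ∈ V ∧
      ‖x'‖ ≤ rr d ∧ Piece d x V := by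
  have hdr : (2:ℝ) ≤ d := by exact_mod_cast hd
  have h0 : 0 < (d:ℝ) - 1 := by linarith
  by_cases hxr : ‖x‖ ≤ rr d
  · exact ⟨{x}, x, isPreconnected_singleton, by simpa using hx, rfl, rfl, hxr, Or.inl rfl⟩
  · push Not at hxr
    have hrr := rr_pos hd
    have hxpos : 0 < ‖x‖ := lt_trans hrr hxr
    have hx0 : x ≠ 0 := norm_pos_iff.mp hxpos
    set z := Complex.log x with hz
    have hexpz : Complex.exp z = x := Complex.exp_log hx0
    have hzre : z.re = Real.log ‖x‖ := Complex.log_re x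
    set j : ℤ := ⌊z.im * ((d:ℝ) - 1) / (2 * Real.pi)⌋ with hj
    have hpi := Real.pi_pos
    have hj1 : th d j ≤ z.im := by
      have := Int.floor_le (z.im * ((d:ℝ) - 1) / (2 * Real.pi))
      rw [← hj, le_div_iff₀ (by positivity)] at this
      unfold th
      rw [div_le_iff₀ h0]
      linarith
    have hj2 : z.im ≤ th d (j + 1) := by
      have := (Int.lt_floor_add_one (z.im * ((d:ℝ) - 1) / (2 * Real.pi))).le
      rw [← hj, div_le_iff₀ (by positivity)] at this
      unfold th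
      rw [le_div_iff₀ h0]
      push_cast
      linarith
    have hrr2 : Real.log (rr d) ≤ Real.log 2 := by
      apply Real.log_le_log hrr
      have h1 : rr d ≤ sr d := by
        unfold rr
        have := pow_nonneg (sr_pos d).le d
        linarith
      linarith [sr_lt_one hd]
    refine ⟨multibrotSet d ∩ Complex.exp '' (KK d j), Complex.exp ⟨Real.log (rr d), z.im⟩,
      conn_piece hd j, inter_subset_left, ⟨hx, z, ⟨⟨?_, ?_⟩, ⟨hj1, hj2⟩⟩, hexpz⟩, ⟨?_, ?_⟩, ?_,
      Or.inr ⟨hxr, ?_⟩⟩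
    · rw [hzre]; exact Real.log_le_log hrr hxr.le
    · rw [hzre]; exact Real.log_le_log hxpos (norm_le_two hd hx)
    · apply disc_subset hd
      rw [norm_exp_eq]
      simp [Real.exp_log hrr]
    · exact ⟨(⟨Real.log (rr d), z.im⟩ : ℂ), ⟨⟨le_rfl, hrr2⟩, ⟨hj1, hj2⟩⟩, rfl⟩
    · rw [norm_exp_eq]
      simp [Real.exp_log hrr]
    · rintro _ ⟨haM, a, ha, rfl⟩
      have hra : rr d ≤ Real.exp a.re := by
        rw [← Real.exp_log hrr]; exact Real.exp_le_exp.mpr ha.1.1
      refine ⟨by rw [norm_exp_eq]; exact hra, norm_le_outer hd haM, ?_⟩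
      have e1 : (‖Complex.exp a‖ : ℂ) * (x / ‖x‖) = Complex.exp (⟨a.re, z.im⟩ : ℂ) := by
        have e2 : (x / ‖x‖ : ℂ) = Complex.exp ((z.im : ℂ) * I) := by
          have h1 : x = (‖x‖ : ℂ) * Complex.exp ((z.im : ℂ) * I) := by
            conv_lhs => rw [← hexpz]
            rw [← Complex.re_add_im z, Complex.exp_add, ← Complex.ofReal_exp, hzre,
              Real.exp_log hxpos]
            simp
          have hxC : (‖x‖ : ℂ) ≠ 0 := by exact_mod_cast hxpos.ne'
          rw [div_eq_iff hxC, mul_comm]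
          exact h1
        rw [e2, norm_exp_eq, Complex.ofReal_exp, ← Complex.exp_add]
        congr 1
        apply Complex.ext <;> simp
      rw [e1, ← dist_eq_norm]
      refine dist_exp_le.trans ?_
      simp only [sub_self, abs_zero, zero_add]
      have h2 : |a.im - z.im| ≤ 2 * Real.pi / ((d:ℝ) - 1) := by
        rw [← th_sub hd j, abs_le]
        have ha1 : th d j ≤ a.im := ha.2.1
        have ha2 : a.im ≤ th d (j + 1) := ha.2.2
        constructor <;> linarith
      have h3 : Real.exp a.re ≤ 2 := by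
        have := norm_le_two hd haM
        rwa [norm_exp_eq] at this
      calc Real.exp a.re * |a.im - z.im| ≤ 2 * (2 * Real.pi / ((d:ℝ) - 1)) :=
            mul_le_mul h3 h2 (abs_nonneg _) (by norm_num)
        _ = _ := by ring

/-- the width of the annulus -/
noncomputable def HH (d : ℕ) : ℝ := 1 + 1 / ((d : ℝ) - 1) - rr d

theorem HH_bound {d : ℕ} (hd : 2 ≤ d) : HH d ≤ (Real.log d + 5) / d := by
  have hdr : (2:ℝ) ≤ d := by exact_mod_cast hd
  have h0 : 0 < (d:ℝ) - 1 := by linarith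
  have hlog : 0 < Real.log d := Real.log_pos (by linarith)
  have h1 : rr d = sr d * (1 - 1 / d) := rr_eq hd
  have h2 := sr_ge d
  have h5 : 0 ≤ 1 - 1 / (d:ℝ) := by
    have : 1 / (d:ℝ) ≤ 1 / 2 := one_div_le_one_div_of_le (by norm_num) hdr
    linarith
  have h6 : (1 - Real.log d / (d - 1)) * (1 - 1 / d) ≤ rr d := by
    rw [h1]; exact mul_le_mul_of_nonneg_right h2 h5
  have e : (1 - Real.log d / ((d:ℝ) - 1)) * (1 - 1 / d) = 1 - 1 / d - Real.log d / d := by
    field_simp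
  have h7 : 1 / ((d:ℝ) - 1) ≤ 2 / d := by
    rw [div_le_div_iff₀ h0 (by linarith)]
    linarith
  have h8 : 0 ≤ 1 / (d : ℝ) := by positivity
  unfold HH
  have e2 : (Real.log d + 5) / d = Real.log d / d + 5 * (1 / d) := by ring
  have e3 : 2 / (d : ℝ) = 2 * (1 / d) := by ring
  rw [e2]
  rw [e] at h6
  rw [e3] at h7
  linarith

/-- distances between points of two pieces -/
theorem piece_dist {d : ℕ} (hd : 2 ≤ d) {x y : ℂ} {V W : Set ℂ} (hV : Piece d x V)
    (hW : Piece d y W) (hxV : x ∈ V) (hyW : y ∈ W) {a b : ℂ} (ha : a ∈ V) (hb : b ∈ W) :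
    dist a b ≤ dist x y + HH d * (1 + dist x y / rr d) + 8 * Real.pi / ((d : ℝ) - 1) := by
  have hdr : (2:ℝ) ≤ d := by exact_mod_cast hd
  have h0 : 0 < (d:ℝ) - 1 := by linarith
  have hrr := rr_pos hd
  have hpi := Real.pi_pos
  have hD := dist_nonneg (x := x) (y := y)
  have hE : 8 * Real.pi / ((d : ℝ) - 1) = 2 * (4 * Real.pi / ((d : ℝ) - 1)) := by ring
  have hE0 : 0 < 4 * Real.pi / ((d : ℝ) - 1) := by positivity
  have hH0 : 0 ≤ HH d := by
    unfold HH
    have h1 : rr d ≤ sr d := by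
      unfold rr
      have := pow_nonneg (sr_pos d).le d
      linarith
    have h2 := sr_lt_one hd
    have h3 : 0 < 1 / ((d : ℝ) - 1) := by positivity
    linarith
  have hq : 0 ≤ dist x y / rr d := by positivity
  have hHq : 0 ≤ HH d * (dist x y / rr d) := by positivity
  -- a point of a big piece, compared with its base point
  have hbase : ∀ {x : ℂ} {V : Set ℂ} {a : ℂ}, x ≠ 0 → rr d < ‖x‖ → ‖x‖ ≤ 1 + 1 / ((d : ℝ) - 1) →
      (rr d ≤ ‖a‖ ∧ ‖a‖ ≤ 1 + 1 / ((d : ℝ) - 1) ∧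
      ‖a - (‖a‖ : ℂ) * (x / ‖x‖)‖ ≤ 4 * Real.pi / ((d : ℝ) - 1)) →
      dist a x ≤ HH d + 4 * Real.pi / ((d : ℝ) - 1) := by
    intro x V a hx0 hx1 hx2 ha
    have hxpos : 0 < ‖x‖ := norm_pos_iff.mpr hx0
    have hxC : (‖x‖ : ℂ) ≠ 0 := by exact_mod_cast hxpos.ne'
    have e : a - x = (a - (‖a‖ : ℂ) * (x / ‖x‖)) + ((‖a‖ - ‖x‖ : ℝ) : ℂ) * (x / ‖x‖) := by
      push_cast
      field_simp
      ring
    rw [dist_eq_norm, e]
    refine (norm_add_le _ _).trans ?_
    have h1 : ‖((‖a‖ - ‖x‖ : ℝ) : ℂ) * (x / ‖x‖)‖ ≤ HH d := by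
      rw [norm_mul, norm_div, Complex.norm_real, Complex.norm_real, norm_norm,
        div_self hxpos.ne', mul_one, Real.norm_eq_abs, abs_le]
      unfold HH
      constructor <;> linarith [ha.1, ha.2.1]
    linarith [ha.2.2]
  have hmul : HH d * (1 + dist x y / rr d) = HH d + HH d * (dist x y / rr d) := by ring
  rcases hV with hV | ⟨hx, hV⟩ <;> rcases hW with hW | ⟨hy, hW⟩
  · subst hV; subst hW
    rw [mem_singleton_iff] at ha hb
    subst ha; subst hb
    nlinarith
  · subst hV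
    rw [mem_singleton_iff] at ha
    subst ha
    have hy0 : y ≠ 0 := norm_pos_iff.mp (lt_trans hrr hy)
    have h1 := hbase (V := W) hy0 hy (hW y hyW).2.1 (hW b hb)
    have h2 := dist_triangle a y b
    rw [dist_comm y b] at h2
    linarith
  · subst hW
    rw [mem_singleton_iff] at hb
    subst hb
    have hx0 : x ≠ 0 := norm_pos_iff.mp (lt_trans hrr hx)
    have h1 := hbase (V := V) hx0 hx (hV x hxV).2.1 (hV a ha)
    have h2 := dist_triangle a x b
    linarith
  · have hx0 : x ≠ 0 := norm_pos_iff.mp (lt_trans hrr hx)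
    have hy0 : y ≠ 0 := norm_pos_iff.mp (lt_trans hrr hy)
    have hxpos : 0 < ‖x‖ := norm_pos_iff.mpr hx0
    have hypos : 0 < ‖y‖ := norm_pos_iff.mpr hy0
    have hxC : (‖x‖ : ℂ) ≠ 0 := by exact_mod_cast hxpos.ne'
    have hyC : (‖y‖ : ℂ) ≠ 0 := by exact_mod_cast hypos.ne'
    set e : ℂ := x / ‖x‖ with he
    set f : ℂ := y / ‖y‖ with hf
    have he1 : ‖e‖ = 1 := by
      rw [he, norm_div, Complex.norm_real, norm_norm, div_self hxpos.ne']
    have hf1 : ‖f‖ = 1 := by
      rw [hf, norm_div, Complex.norm_real, norm_norm, div_self hypos.ne']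
    have h1 := unit_dist he1 hf1 hrr.le hx.le hy.le
    have h2 : (‖x‖ : ℂ) * e - (‖y‖ : ℂ) * f = x - y := by
      rw [he, hf]; field_simp
    rw [h2] at h1
    obtain ⟨ha1, ha2, ha3⟩ := hV a ha
    obtain ⟨hb1, hb2, hb3⟩ := hW b hb
    have h3 : ‖e - f‖ ≤ dist x y / rr d := by
      rw [le_div_iff₀ hrr, dist_eq_norm]; linarith
    have h4 : a - b = (a - (‖a‖ : ℂ) * e) + ((‖a‖ - ‖b‖ : ℝ) : ℂ) * e + (‖b‖ : ℂ) * (e - f)
        - (b - (‖b‖ : ℂ) * f) := by
      push_cast; ring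
    rw [dist_eq_norm, h4]
    have h5 : ‖((‖a‖ - ‖b‖ : ℝ) : ℂ) * e‖ ≤ HH d := by
      rw [norm_mul, he1, mul_one, Complex.norm_real, Real.norm_eq_abs, abs_le]
      unfold HH
      constructor <;> linarith
    have h6 : ‖(‖b‖ : ℂ) * (e - f)‖ ≤ dist x y + HH d * (dist x y / rr d) := by
      rw [norm_mul, Complex.norm_real, norm_norm]
      have h7 : ‖b‖ ≤ rr d + HH d := by unfold HH; linarith
      calc ‖b‖ * ‖e - f‖ ≤ (rr d + HH d) * (dist x y / rr d) := by gcongr
        _ = dist x y + HH d * (dist x y / rr d) := by field_simp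
    have h8 := norm_sub_le ((a - (‖a‖ : ℂ) * e) + ((‖a‖ - ‖b‖ : ℝ) : ℂ) * e + (‖b‖ : ℂ) * (e - f))
      (b - (‖b‖ : ℂ) * f)
    have h9 := norm_add₃_le (a := a - (‖a‖ : ℂ) * e) (b := ((‖a‖ - ‖b‖ : ℝ) : ℂ) * e)
      (c := (‖b‖ : ℂ) * (e - f))
    linarith

/-- Coarse local connectivity with explicit constants. -/
theorem coarse {d : ℕ} (hd : 2 ≤ d) {x y : ℂ} (hx : x ∈ multibrotSet d)
    (hy : y ∈ multibrotSet d) :
    ∃ S : Set ℂ, S ⊆ multibrotSet d ∧ IsCompact S ∧ IsConnected S ∧ x ∈ S ∧ y ∈ S ∧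
      Metric.diam S ≤ dist x y + HH d * (1 + dist x y / rr d) + 8 * Real.pi / ((d : ℝ) - 1) := by
  obtain ⟨V, x', hVp, hVM, hxV, hx'V, hx'r, hVd⟩ := exists_piece2 hd hx
  obtain ⟨W, y', hWp, hWM, hyW, hy'W, hy'r, hWd⟩ := exists_piece2 hd hy
  have hdr : (2:ℝ) ≤ d := by exact_mod_cast hd
  have h0 : 0 < (d:ℝ) - 1 := by linarith
  have hrr := rr_pos hd
  have hpi := Real.pi_pos
  set L : Set ℂ := segment ℝ x' y' with hL
  have hLM : L ⊆ multibrotSet d := by
    intro c hc
    apply disc_subset hd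
    have h1 : L ⊆ Metric.closedBall (0:ℂ) (rr d) :=
      (convex_closedBall (0:ℂ) (rr d)).segment_subset (by simpa using hx'r) (by simpa using hy'r)
    simpa using h1 hc
  have hLp : IsPreconnected L := (convex_segment x' y').isPreconnected
  set S0 : Set ℂ := (V ∪ L) ∪ W with hS0
  have hS0M : S0 ⊆ multibrotSet d := union_subset (union_subset hVM hLM) hWM
  have hS0p : IsPreconnected S0 := by
    apply IsPreconnected.union y'
    · exact Or.inr (right_mem_segment ℝ x' y')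
    · exact hy'W
    · exact IsPreconnected.union x' hx'V (left_mem_segment ℝ x' y') hVp hLp
    · exact hWp
  have hH0 : 0 ≤ HH d := by
    unfold HH
    have h1 : rr d ≤ sr d := by
      unfold rr
      have := pow_nonneg (sr_pos d).le d
      linarith
    have h2 := sr_lt_one hd
    have h3 : 0 < 1 / ((d : ℝ) - 1) := by positivity
    linarith
  set K : ℝ := dist x y + HH d * (1 + dist x y / rr d) + 8 * Real.pi / ((d : ℝ) - 1) with hK
  have hK0 : 0 ≤ K := by
    rw [hK]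
    have : 0 ≤ dist x y / rr d := by positivity
    positivity
  have hKxx : ∀ x : ℂ, dist x x + HH d * (1 + dist x x / rr d) + 8 * Real.pi / ((d : ℝ) - 1) ≤ K := by
    intro z
    have h1 : 0 ≤ dist x y / rr d := by positivity
    have h2 : 0 ≤ HH d * (dist x y / rr d) := by positivity
    have h3 : HH d * (1 + dist x y / rr d) = HH d + HH d * (dist x y / rr d) := by ring
    rw [hK, dist_self, zero_div, h3]
    linarith [dist_nonneg (x := x) (y := y)]
  have hVW : ∀ a ∈ V ∪ W, ∀ b ∈ V ∪ W, dist a b ≤ K := by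
    rintro a (ha | ha) b (hb | hb)
    · exact (piece_dist hd hVd hVd hxV hxV ha hb).trans (hKxx x)
    · exact piece_dist hd hVd hWd hxV hyW ha hb
    · rw [dist_comm]
      exact piece_dist hd hVd hWd hxV hyW hb ha
    · exact (piece_dist hd hWd hWd hyW hyW ha hb).trans (hKxx y)
  have hsub : S0 ⊆ convexHull ℝ (V ∪ W) := by
    rintro a ((ha | ha) | ha)
    · exact subset_convexHull ℝ _ (Or.inl ha)
    · have hx'' : x' ∈ convexHull ℝ (V ∪ W) := subset_convexHull ℝ (V ∪ W) (Or.inl hx'V)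
      have hy'' : y' ∈ convexHull ℝ (V ∪ W) := subset_convexHull ℝ (V ∪ W) (Or.inr hy'W)
      exact (convex_convexHull ℝ (V ∪ W)).segment_subset hx'' hy'' ha
    · exact subset_convexHull ℝ _ (Or.inr ha)
  have hbdd : Bornology.IsBounded (V ∪ W) :=
    (isCompact_multibrot hd).isBounded.subset (union_subset hVM hWM)
  have hdiam : Metric.diam S0 ≤ K := by
    refine (Metric.diam_mono hsub (isBounded_convexHull.mpr hbdd)).trans ?_
    rw [convexHull_diam]
    exact Metric.diam_le_of_forall_dist_le hK0 hVW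
  have hclM : closure S0 ⊆ multibrotSet d :=
    (isCompact_multibrot hd).isClosed.closure_subset_iff.mpr hS0M
  refine ⟨closure S0, hclM, ?_, ⟨⟨x, subset_closure (Or.inl (Or.inl hxV))⟩, hS0p.closure⟩,
    subset_closure (Or.inl (Or.inl hxV)), subset_closure (Or.inr hyW), ?_⟩
  · exact (isCompact_multibrot hd).of_isClosed_subset isClosed_closure hclM
  · rw [Metric.diam_closure]
    exact hdiam

/-- Coarse local connectivity, for large degrees. -/
theorem coarse_large {d : ℕ} (hd : 2 ≤ d) (hsq : (2 * Real.log d + 8) ^ 2 ≤ d) {x y : ℂ}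
    (hx : x ∈ multibrotSet d) (hy : y ∈ multibrotSet d) :
    ∃ S : Set ℂ, S ⊆ multibrotSet d ∧ IsCompact S ∧ IsConnected S ∧ x ∈ S ∧ y ∈ S ∧
      Metric.diam S ≤ dist x y + (1 + dist x y) * ((Real.log d + 60) / d) := by
  obtain ⟨S, h1, h2, h3, h4, h5, h6⟩ := coarse hd hx hy
  refine ⟨S, h1, h2, h3, h4, h5, h6.trans ?_⟩
  have hdr : (2:ℝ) ≤ d := by exact_mod_cast hd
  have h0 : 0 < (d:ℝ) - 1 := by linarith
  have hlog : 0 < Real.log d := Real.log_pos (by linarith)
  have hHH := HH_bound hd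
  have hD := dist_nonneg (x := x) (y := y)
  have hd64 : (64 : ℝ) ≤ d := by nlinarith
  set t := Real.log d with ht
  have hsmall : (t + 5) / d ≤ 1 / 8 := by
    rw [div_le_iff₀ (by linarith)]
    nlinarith
  have hrr1 : 1 - (t + 5) / d ≤ rr d := by
    have h7 : 0 < 1 / ((d : ℝ) - 1) := by positivity
    unfold HH at hHH
    linarith
  have hrr2 : 0 < rr d := rr_pos hd
  have hw : 0 ≤ (t + 5) / (d : ℝ) := by positivity
  have hH0 : 0 ≤ HH d := by
    unfold HH
    have h1 : rr d ≤ sr d := by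
      unfold rr
      have := pow_nonneg (sr_pos d).le d
      linarith
    have h2 := sr_lt_one hd
    have h3 : 0 < 1 / ((d : ℝ) - 1) := by positivity
    linarith
  -- `HH / rr ≤ (t + 6) / d`
  have hq : HH d / rr d ≤ (t + 6) / d := by
    rw [div_le_iff₀ hrr2]
    have h8 : (t + 6) / d * (1 - (t + 5) / d) ≤ (t + 6) / d * rr d := by gcongr
    refine hHH.trans (le_trans ?_ h8)
    have e : (t + 6) / d * (1 - (t + 5) / d) = (t + 5) / d + (1 - (t + 6) * (t + 5) / d) / d := by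
      field_simp; ring
    rw [e]
    have h9 : 0 ≤ (1 - (t + 6) * (t + 5) / d) / d := by
      apply div_nonneg _ (by linarith)
      rw [sub_nonneg, div_le_one (by linarith)]
      nlinarith
    linarith
  have hπ : 8 * Real.pi / ((d : ℝ) - 1) ≤ 52 / d := by
    have := Real.pi_lt_d2
    rw [div_le_div_iff₀ h0 (by linarith)]
    nlinarith
  have e1 : HH d * (1 + dist x y / rr d) = HH d + dist x y * (HH d / rr d) := by ring
  rw [e1]
  have h10 : dist x y * (HH d / rr d) ≤ dist x y * ((t + 60) / d) := by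
    apply mul_le_mul_of_nonneg_left _ hD
    refine hq.trans ?_
    gcongr
    norm_num
  have e2 : (1 + dist x y) * ((t + 60) / d) = (t + 5) / d + 52 / d + 3 / d
      + dist x y * ((t + 60) / d) := by ring
  rw [e2]
  have : 0 ≤ 3 / (d : ℝ) := by positivity
  linarith

end Pool.Agent.Y272
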