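import Mathlib
import Pool.Agent.Y272.Up

/-!
# The modulus of local connectivity of the Multibrot sets at the scale `1 / n` (helper272)
-/

set_option autoImplicit false

open Complex Set Topology Filter Bornology N62a1eb23 Metric

namespace Pool.Agent.Y272

open Pool.Agent.H712R2

theorem upper : ∃ C : ℝ, ∀ n : ℕ, 2 ≤ n → ∀ x ∈ multibrotSet n, ∀ y ∈ multibrotSet n,
    ∃ S ⊆ multibrotSet n, IsCompact S ∧ IsConnected S ∧ x ∈ S ∧ y ∈ S ∧
      Metric.diam S ≤ dist x y + (1 + dist x y) * ((Real.log n + C) / n) := by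
  obtain ⟨N, hN⟩ := eventually_atTop.mp (eventually_big 1 le_rfl)
  refine ⟨4 * N + 60, fun n hn x hx y hy => ?_⟩
  have hnr : (2 : ℝ) ≤ n := by exact_mod_cast hn
  have hD := dist_nonneg (x := x) (y := y)
  rcases le_or_gt N n with h | h
  · obtain ⟨S, h1, h2, h3, h4, h5, h6⟩ := coarse_large hn (hN n h).sq hx hy
    refine ⟨S, h1, h2, h3, h4, h5, h6.trans ?_⟩
    have : (60 : ℝ) ≤ 4 * N + 60 := by
      have : (0 : ℝ) ≤ N := Nat.cast_nonneg N
      linarith
    gcongr
  · refine ⟨multibrotSet n, Subset.rfl, isCompact_multibrot hn, isConnected_multibrot hn, hx, hy, ?_⟩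
    have h1 : Metric.diam (multibrotSet n) ≤ 4 := by
      apply Metric.diam_le_of_forall_dist_le (by norm_num)
      intro a ha b hb
      have h2 := norm_le_two hn ha
      have h3 := norm_le_two hn hb
      rw [dist_eq_norm]
      linarith [norm_sub_le a b]
    have h2 : (n : ℝ) ≤ N := by exact_mod_cast h.le
    have h3 : 4 ≤ (Real.log n + (4 * N + 60)) / (n : ℝ) := by
      rw [le_div_iff₀ (by linarith)]
      have := Real.log_natCast_nonneg n
      linarith
    nlinarith

theorem lower (k : ℕ) : ∃ C : ℝ, ∃ N : ℕ, ∀ n ≥ N, ∃ x ∈ multibrotSet n, ∃ y ∈ multibrotSet n,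
    dist x y ≤ C / (n * ∏ j ∈ Finset.range k, Real.log^[j + 1] n) ∧
    ∀ S ⊆ multibrotSet n, IsPreconnected S → x ∈ S → y ∈ S →
      (Real.log^[k + 1] n - C) / n ≤ Metric.diam S := by
  have hpi := Real.pi_gt_three
  have h4k : (1 : ℝ) ≤ 4 ^ k := one_le_pow₀ (by norm_num)
  have h2C : 2 ≤ 8 * Real.pi * 4 ^ k := by nlinarith
  rcases Nat.eq_zero_or_pos k with rfl | hk
  · obtain ⟨N, hN⟩ := eventually_atTop.mp (eventually_big 1 le_rfl)
    refine ⟨8 * Real.pi, N, fun n hn => ?_⟩
    have hB := hN n hn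
    have hn16 := hB.n1
    have hsq := hB.sq
    have hln : 0 ≤ Real.log n := Real.log_natCast_nonneg n
    obtain ⟨x, h1, h2, h3, h4⟩ := low_zero (n := n) (by omega) (by nlinarith)
    refine ⟨x, h1, _, h2, by simpa using h3, fun S hS hSc hx hy => ?_⟩
    refine le_trans ?_ (h4 S hS hSc hx hy)
    have hn0 : (0 : ℝ) < n := by
      have : 0 < n := by omega
      exact_mod_cast this
    apply div_le_div_of_nonneg_right _ hn0.le
    simp only [zero_add, Function.iterate_one]
    linarith
  · obtain ⟨N, hN⟩ := eventually_atTop.mp (eventually_big k hk)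
    refine ⟨8 * Real.pi * 4 ^ k, N, fun n hn => ?_⟩
    have hB := hN n hn
    have hn16 := hB.n1
    obtain ⟨x, h1, h2, h3, h4⟩ := hB.low
    refine ⟨x, h1, _, h2, h3, fun S hS hSc hx hy => ?_⟩
    refine le_trans ?_ (h4 S hS hSc hx hy)
    have hn0 : (0 : ℝ) < n := by
      have : 0 < n := by omega
      exact_mod_cast this
    apply div_le_div_of_nonneg_right _ hn0.le
    unfold Lg
    linarith

end Pool.Agent.Y272
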